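import Pool.Agent.H174.GP.StG
import Pool.Agent.H975.GP174.indep

set_option autoImplicit false

open MeasureTheory ProbabilityTheory Finset

namespace Pool.Agent.H870.GP174

open Pool.Agent.H174.GP

/-! ### the normalised central binomial coefficients -/

/-- the normalised central binomial coefficients -/
noncomputable def cb (n : ℕ) : ℝ := (Nat.centralBinom n : ℝ) / 4 ^ n

theorem cb_zero : cb 0 = 1 := by
  unfold cb
  rw [Nat.centralBinom_zero]
  norm_num

theorem cb_pos (n : ℕ) : 0 < cb n := by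
  unfold cb
  have : (0 : ℝ) < Nat.centralBinom n := by exact_mod_cast Nat.centralBinom_pos n
  positivity

theorem cb_succ (n : ℕ) : ((n : ℝ) + 1) * cb (n + 1) = ((n : ℝ) + 1 / 2) * cb n := by
  have h := Nat.succ_mul_centralBinom_succ n
  have h' : ((n : ℝ) + 1) * (Nat.centralBinom (n + 1) : ℝ) =
      2 * (2 * n + 1) * (Nat.centralBinom n : ℝ) := by exact_mod_cast h
  unfold cb
  rw [pow_succ]
  have h4 : (4 : ℝ) ^ n ≠ 0 := by positivity
  field_simp
  linarith

/-- the convolution square -/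
noncomputable def D2 (n : ℕ) : ℝ := ∑ p ∈ antidiagonal n, cb p.1 * cb p.2

/-- the weighted convolution square -/
noncomputable def E2 (n : ℕ) : ℝ := ∑ p ∈ antidiagonal n, (p.1 : ℝ) * (cb p.1 * cb p.2)

theorem E2_eq (n : ℕ) : 2 * E2 n = n * D2 n := by
  have h1 : E2 n = ∑ p ∈ antidiagonal n, (p.2 : ℝ) * (cb p.1 * cb p.2) := by
    unfold E2
    rw [← Finset.Nat.sum_antidiagonal_swap]
    refine Finset.sum_congr rfl fun p _ => ?_
    simp only [Prod.fst_swap, Prod.snd_swap]
    ring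
  have h2 : E2 n + E2 n = n * D2 n := by
    conv_lhs => rw [h1]
    nth_rewrite 2 [← h1]
    unfold E2 D2
    rw [← Finset.sum_add_distrib, Finset.mul_sum]
    refine Finset.sum_congr rfl fun p hp => ?_
    have h3 : (p.1 : ℝ) + p.2 = n := by exact_mod_cast Finset.HasAntidiagonal.mem_antidiagonal.1 hp
    rw [← h3]
    ring
  linarith

theorem E2_succ (n : ℕ) : E2 (n + 1) = E2 n + D2 n / 2 := by
  unfold E2 D2
  rw [Finset.Nat.sum_antidiagonal_succ, Finset.sum_div, ← Finset.sum_add_distrib]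
  simp only [Nat.cast_zero, zero_mul, zero_add]
  refine Finset.sum_congr rfl fun p _ => ?_
  have h := cb_succ p.1
  push_cast
  calc ((p.1 : ℝ) + 1) * (cb (p.1 + 1) * cb p.2) = (((p.1 : ℝ) + 1) * cb (p.1 + 1)) * cb p.2 := by
        ring
    _ = _ := by rw [h]; ring

theorem D2_eq (n : ℕ) : D2 n = 1 := by
  induction n with
  | zero =>
    unfold D2
    simp [cb_zero]
  | succ n ih =>
    have h1 := E2_eq (n + 1)
    have h2 := E2_succ n
    have h3 := E2_eq n
    have h4 : ((n : ℝ) + 1) * D2 (n + 1) = ((n : ℝ) + 1) * D2 n := by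
      push_cast at h1
      rw [← h1, h2]
      linarith
    have h5 : (0 : ℝ) < (n : ℝ) + 1 := by positivity
    rw [← ih]
    exact mul_left_cancel₀ h5.ne' h4

theorem cb_lower (n : ℕ) : 1 ≤ 4 * ((n : ℝ) + 1) * cb (n + 1) ^ 2 := by
  induction n with
  | zero =>
    have h := cb_succ 0
    rw [cb_zero] at h
    have h1 : cb (0 + 1) = 1 / 2 := by
      push_cast at h
      linarith
    rw [h1]
    norm_num
  | succ n ih =>
    have h := cb_succ (n + 1)
    push_cast at h ⊢
    have hn : (0 : ℝ) < (n : ℝ) + 1 + 1 := by positivity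
    have h1 : cb (n + 1 + 1) = ((n : ℝ) + 1 + 1 / 2) / ((n : ℝ) + 1 + 1) * cb (n + 1) := by
      rw [div_mul_eq_mul_div, eq_div_iff hn.ne']
      linarith
    rw [h1]
    have h2 : 4 * ((n : ℝ) + 1 + 1) * (((n : ℝ) + 1 + 1 / 2) / ((n : ℝ) + 1 + 1) * cb (n + 1)) ^ 2 =
        ((n : ℝ) + 1 + 1 / 2) ^ 2 / (((n : ℝ) + 1) * ((n : ℝ) + 1 + 1)) *
          (4 * ((n : ℝ) + 1) * cb (n + 1) ^ 2) := by
      have hn1 : (0 : ℝ) < (n : ℝ) + 1 := by positivity
      field_simp
    rw [h2]
    have h3 : 1 ≤ ((n : ℝ) + 1 + 1 / 2) ^ 2 / (((n : ℝ) + 1) * ((n : ℝ) + 1 + 1)) := by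
      rw [one_le_div (by positivity)]
      nlinarith
    calc (1 : ℝ) = 1 * 1 := (one_mul 1).symm
      _ ≤ _ := mul_le_mul h3 ih zero_le_one (zero_le_one.trans h3)

theorem cb_ge (n : ℕ) : 1 / (2 * Real.sqrt ((n : ℝ) + 1)) ≤ cb n := by
  rcases n with _ | n
  · rw [cb_zero]
    norm_num
  · have h := cb_lower n
    have hp := cb_pos (n + 1)
    have hs : 0 < Real.sqrt (((n + 1 : ℕ) : ℝ) + 1) := Real.sqrt_pos.2 (by positivity)
    rw [div_le_iff₀ (by positivity)]
    have h1 : (1 : ℝ) ^ 2 ≤ (cb (n + 1) * (2 * Real.sqrt (((n + 1 : ℕ) : ℝ) + 1))) ^ 2 := by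
      rw [mul_pow, mul_pow, Real.sq_sqrt (by positivity)]
      push_cast
      nlinarith [sq_nonneg (cb (n + 1))]
    exact (pow_le_pow_iff_left₀ zero_le_one (by positivity) two_ne_zero).1 h1

/-! ### the law -/

theorem indC : iIndepFun (fun (i : ℕ) (ω : ℕ → ℝ) => ω i) PP := by
  have := iIndepFun_infinitePi (P := fun _ : ℕ => lap) (X := fun (_ : ℕ) (x : ℝ) => x)
    (fun _ => measurable_id)
  exact this

theorem law_eval (i : ℕ) : Measure.map (fun ω : ℕ → ℝ => ω i) PP = lap :=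
  (measurePreserving_eval_infinitePi (fun _ : ℕ => lap) i).map_eq

theorem law_perm {e : ℕ → ℕ} (he : Function.Injective e) :
    Measure.map (fun (ω : ℕ → ℝ) (j : ℕ) => ω (e j)) PP = PP := by
  have h1 := indC.precomp he
  have h2 := h1.map_fun_eq_infinitePi_map (fun i => measurable_pi_apply (e i))
  simp only [law_eval] at h2
  exact h2

theorem law_neg (h3 : S_L3) {e : ℕ → ℕ} (he : Function.Injective e) :
    Measure.map (fun (ω : ℕ → ℝ) (j : ℕ) => -ω (e j)) PP = PP := by
  have h1 := (indC.precomp he).comp (fun _ (x : ℝ) => -x) fun _ => measurable_neg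
  have h2 := h1.map_fun_eq_infinitePi_map
    (fun i => measurable_neg.comp (measurable_pi_apply (e i)))
  have h4 : ∀ i : ℕ, Measure.map ((fun (x : ℝ) => -x) ∘ fun ω : ℕ → ℝ => ω (e i)) PP = lap := by
    intro i
    have hn : Measurable (fun x : ℝ => -x) := measurable_neg
    rw [← Measure.map_map hn (measurable_pi_apply (e i)), law_eval]
    exact h3.1
  have h5 : (fun i : ℕ => Measure.map ((fun (x : ℝ) => -x) ∘ fun ω : ℕ → ℝ => ω (e i)) PP) =
      fun _ => lap := funext h4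
  have h6 : Measure.map (fun (ω : ℕ → ℝ) (j : ℕ) => -ω (e j)) PP =
      Measure.infinitePi (fun i : ℕ => Measure.map ((fun (x : ℝ) => -x) ∘
        fun ω : ℕ → ℝ => ω (e i)) PP) := h2
  rw [h6, h5]
  rfl

theorem real_of_map {T : (ℕ → ℝ) → (ℕ → ℝ)} (hT : Measurable T) (hmap : Measure.map T PP = PP)
    {F : Set (ℕ → ℝ)} (hF : MeasurableSet F) : PP.real (T ⁻¹' F) = PP.real F := by
  rw [measureReal_def, measureReal_def, ← Measure.map_apply hT hF, hmap]

/-! ### the sums -/

theorem S_zero (ω : ℕ → ℝ) : S ω 0 = 0 := by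
  unfold S
  simp

theorem S_succ (ω : ℕ → ℝ) (j : ℕ) : S ω (j + 1) = S ω j + ω (j + 1) := by
  unfold S
  rw [Finset.sum_Icc_succ_top (by omega)]

theorem meas_S (j : ℕ) : Measurable fun ω : ℕ → ℝ => S ω j := by
  unfold S
  exact Finset.measurable_sum _ fun i _ => measurable_pi_apply i

theorem S_congr {ω ω' : ℕ → ℝ} {j : ℕ} (h : ∀ i, 1 ≤ i → i ≤ j → ω i = ω' i) :
    S ω j = S ω' j := by
  unfold S
  exact Finset.sum_congr rfl fun i hi => h i (Finset.mem_Icc.1 hi).1 (Finset.mem_Icc.1 hi).2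

/-- `S_j ≠ 0` almost surely. -/
theorem S_ne (h3 : S_L3) (j : ℕ) : PP {ω | S ω (j + 1) = 0} = 0 := by
  have h1 : IndepFun (fun ω : ℕ → ℝ => S ω j) (fun ω : ℕ → ℝ => ω (j + 1)) PP := by
    have h2 := indC.indepFun_finsetSum_of_notMem (fun i => measurable_pi_apply i)
      (s := Finset.Icc 1 j) (i := j + 1) (by simp)
    have h4 : (∑ i ∈ Finset.Icc 1 j, fun ω : ℕ → ℝ => ω i) = fun ω : ℕ → ℝ => S ω j := by
      funext ω
      rw [Finset.sum_apply]
      rfl
    rw [h4] at h2
    exact h2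
  have h5 := (indepFun_iff_map_prod_eq_prod_map_map (meas_S j).aemeasurable
    (measurable_pi_apply (j + 1)).aemeasurable).1 h1
  rw [law_eval] at h5
  have hm : MeasurableSet {p : ℝ × ℝ | p.1 + p.2 = 0} :=
    measurableSet_eq_fun (measurable_fst.add measurable_snd) measurable_const
  have h6 : (Measure.map (fun ω : ℕ → ℝ => S ω j) PP).prod lap {p : ℝ × ℝ | p.1 + p.2 = 0} = 0 := by
    refine Measure.measure_prod_null_of_ae_null hm (Filter.Eventually.of_forall fun x => ?_)
    have h7 : (Prod.mk x ⁻¹' {p : ℝ × ℝ | p.1 + p.2 = 0}) = {-x} := by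
      ext y
      simp only [Set.mem_preimage, Set.mem_ofPred_eq, Set.mem_singleton_iff]
      constructor
      · intro h
        linarith
      · intro h
        rw [h]
        ring
    simp only [h7]
    exact h3.2.2 (-x)
  rw [← h5, Measure.map_apply ((meas_S j).prodMk (measurable_pi_apply (j + 1))) hm] at h6
  have h8 : {ω : ℕ → ℝ | S ω (j + 1) = 0} =
      (fun ω : ℕ → ℝ => (S ω j, ω (j + 1))) ⁻¹' {p : ℝ × ℝ | p.1 + p.2 = 0} := by
    ext ω
    simp only [Set.mem_ofPred_eq, Set.mem_preimage]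
    rw [S_succ]
  rw [h8]
  exact h6

/-- the weak persistence probability -/
noncomputable def av (n : ℕ) : ℝ := PP.real {ω | ∀ j ∈ Finset.Icc 1 n, 0 ≤ S ω j}

/-- the strict persistence probability -/
noncomputable def bv (n : ℕ) : ℝ := PP.real {ω | ∀ j ∈ Finset.Icc 1 n, 0 < S ω j}

theorem bv_eq (h3 : S_L3) (n : ℕ) : bv n = av n := by
  unfold bv av
  refine measureReal_congr ?_
  have h1 : ∀ᵐ ω ∂PP, ∀ j ∈ Finset.Icc 1 n, S ω j ≠ 0 := by
    refine (Finset.eventually_all _).2 fun j hj => ?_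
    obtain ⟨i, rfl⟩ : ∃ i, j = i + 1 := ⟨j - 1, by have := (Finset.mem_Icc.1 hj).1; omega⟩
    have h2 := S_ne h3 i
    rw [ae_iff]
    simp only [ne_eq, not_not]
    exact h2
  filter_upwards [h1] with ω hω
  refine propext ⟨fun h j hj => (h j hj).le, fun h j hj => ?_⟩
  exact lt_of_le_of_ne (h j hj) (Ne.symm (hω j hj))

theorem meas_av (n : ℕ) : MeasurableSet {ω : ℕ → ℝ | ∀ j ∈ Finset.Icc 1 n, 0 ≤ S ω j} := by
  have h : {ω : ℕ → ℝ | ∀ j ∈ Finset.Icc 1 n, 0 ≤ S ω j} =
      ⋂ j ∈ Finset.Icc 1 n, {ω : ℕ → ℝ | 0 ≤ S ω j} := by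
    ext ω
    simp
  rw [h]
  exact Finset.measurableSet_biInter _ fun j _ => measurableSet_le measurable_const (meas_S j)

theorem meas_bv (n : ℕ) : MeasurableSet {ω : ℕ → ℝ | ∀ j ∈ Finset.Icc 1 n, 0 < S ω j} := by
  have h : {ω : ℕ → ℝ | ∀ j ∈ Finset.Icc 1 n, 0 < S ω j} =
      ⋂ j ∈ Finset.Icc 1 n, {ω : ℕ → ℝ | 0 < S ω j} := by
    ext ω
    simp
  rw [h]
  exact Finset.measurableSet_biInter _ fun j _ => measurableSet_lt measurable_const (meas_S j)

/-! ### the first maximum -/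

/-- the values before `m` are smaller than the value at `m` -/
def Af (m : ℕ) : Set (ℕ → ℝ) := {ω | ∀ j ∈ Finset.range m, S ω j < S ω m}

/-- the values after `m` are at most the value at `m` -/
def Bf (m n : ℕ) : Set (ℕ → ℝ) := {ω | ∀ j ∈ Finset.Icc (m + 1) n, S ω j - S ω m ≤ 0}

theorem meas_Af (m : ℕ) : MeasurableSet (Af m) := by
  have h : Af m = ⋂ j ∈ Finset.range m, {ω : ℕ → ℝ | S ω j < S ω m} := by
    ext ω
    simp [Af]
  rw [h]
  exact Finset.measurableSet_biInter _ fun j _ => measurableSet_lt (meas_S j) (meas_S m)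

theorem meas_Bf (m n : ℕ) : MeasurableSet (Bf m n) := by
  have h : Bf m n = ⋂ j ∈ Finset.Icc (m + 1) n, {ω : ℕ → ℝ | S ω j - S ω m ≤ 0} := by
    ext ω
    simp [Bf]
  rw [h]
  exact Finset.measurableSet_biInter _ fun j _ =>
    measurableSet_le ((meas_S j).sub (meas_S m)) measurable_const

theorem dep_Af (m : ℕ) : DepOn (Finset.Icc 1 m) (Af m) := by
  intro ω ω' h hω j hj
  have hjm := Finset.mem_range.1 hj
  have h1 : S ω j = S ω' j := S_congr fun i h1 h2 => h i (Finset.mem_Icc.2 ⟨h1, by omega⟩)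
  have h2 : S ω m = S ω' m := S_congr fun i h1 h2 => h i (Finset.mem_Icc.2 ⟨h1, h2⟩)
  rw [← h1, ← h2]
  exact hω j hj

theorem S_diff (ω : ℕ → ℝ) (m k : ℕ) : S ω (m + k) - S ω m = S (fun j => ω (m + j)) k := by
  induction k with
  | zero => rw [S_zero, add_zero, sub_self]
  | succ k ih =>
    rw [S_succ (fun j => ω (m + j)) k, ← ih, ← add_assoc, S_succ]
    ring_nf

theorem dep_Bf (m n : ℕ) : DepOn (Finset.Icc (m + 1) n) (Bf m n) := by
  intro ω ω' h hω j hj
  obtain ⟨k, rfl⟩ : ∃ k, j = m + k := ⟨j - m, by have := (Finset.mem_Icc.1 hj).1; omega⟩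
  have h1 := hω (m + k) hj
  rw [S_diff] at h1 ⊢
  have h2 : S (fun j => ω (m + j)) k = S (fun j => ω' (m + j)) k := S_congr fun i h1 h2 =>
    h (m + i) (Finset.mem_Icc.2 ⟨by omega, by have := (Finset.mem_Icc.1 hj).2; omega⟩)
  rw [← h2]
  exact h1

/-- the reversal of the first `m` coordinates -/
def rv (m j : ℕ) : ℕ := if 1 ≤ j ∧ j ≤ m then m + 1 - j else j

theorem rv_inj (m : ℕ) : Function.Injective (rv m) := by
  intro a b h
  unfold rv at h
  split_ifs at h <;> omega

theorem S_rev (ω : ℕ → ℝ) (m k : ℕ) (hk : k ≤ m) :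
    S (fun j => ω (rv m j)) k = S ω m - S ω (m - k) := by
  induction k with
  | zero => rw [S_zero, Nat.sub_zero, sub_self]
  | succ k ih =>
    rw [S_succ, ih (by omega)]
    have h1 : rv m (k + 1) = m - (k + 1) + 1 := by
      unfold rv
      rw [if_pos ⟨by omega, hk⟩]
      omega
    have h2 : m - k = m - (k + 1) + 1 := by omega
    rw [h1, h2, S_succ]
    ring

theorem real_Af (m : ℕ) : PP.real (Af m) = bv m := by
  have h := real_of_map (T := fun (ω : ℕ → ℝ) (j : ℕ) => ω (rv m j))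
    (measurable_pi_lambda _ fun j => measurable_pi_apply _) (law_perm (rv_inj m)) (meas_bv m)
  unfold bv
  rw [← h]
  congr 1
  ext ω
  simp only [Af, Set.mem_ofPred_eq, Set.mem_preimage]
  constructor
  · intro h1 j hj
    have hj' := Finset.mem_Icc.1 hj
    rw [S_rev ω m j hj'.2]
    have := h1 (m - j) (Finset.mem_range.2 (by omega))
    linarith
  · intro h1 j hj
    have hj' := Finset.mem_range.1 hj
    have h2 := h1 (m - j) (Finset.mem_Icc.2 ⟨by omega, by omega⟩)
    rw [S_rev ω m (m - j) (by omega)] at h2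
    have h3 : m - (m - j) = j := by omega
    rw [h3] at h2
    linarith

theorem real_Bf (h3 : S_L3) (m k : ℕ) : PP.real (Bf m (m + k)) = av k := by
  have hinj : Function.Injective fun j : ℕ => m + j := fun a b h => Nat.add_left_cancel h
  have h := real_of_map (T := fun (ω : ℕ → ℝ) (j : ℕ) => -ω (m + j))
    (measurable_pi_lambda _ fun j => measurable_neg.comp (measurable_pi_apply _))
    (law_neg h3 hinj) (meas_av k)
  have hneg : ∀ (ω : ℕ → ℝ) (i : ℕ), S (fun j => -ω (m + j)) i = -(S ω (m + i) - S ω m) := by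
    intro ω i
    rw [S_diff]
    unfold S
    rw [Finset.sum_neg_distrib]
  unfold av
  rw [← h]
  congr 1
  ext ω
  simp only [Bf, Set.mem_ofPred_eq, Set.mem_preimage]
  constructor
  · intro h1 j hj
    have hj' := Finset.mem_Icc.1 hj
    rw [hneg]
    have := h1 (m + j) (Finset.mem_Icc.2 ⟨by omega, by omega⟩)
    linarith
  · intro h1 j hj
    have hj' := Finset.mem_Icc.1 hj
    obtain ⟨i, rfl⟩ : ∃ i, j = m + i := ⟨j - m, by omega⟩
    have h2 := h1 i (Finset.mem_Icc.2 ⟨by omega, by omega⟩)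
    rw [hneg] at h2
    linarith

theorem cover (n : ℕ) (ω : ℕ → ℝ) : ∃ m ∈ Finset.range (n + 1), ω ∈ Af m ∩ Bf m n := by
  classical
  obtain ⟨m0, hm0, hmax⟩ := Finset.exists_max_image (Finset.range (n + 1)) (fun j => S ω j)
    ⟨0, by simp⟩
  have hex : ∃ m, m ∈ Finset.range (n + 1) ∧ ∀ j ∈ Finset.range (n + 1), S ω j ≤ S ω m :=
    ⟨m0, hm0, hmax⟩
  obtain ⟨h1, h2⟩ := Nat.find_spec hex
  refine ⟨Nat.find hex, h1, ?_, ?_⟩
  · intro j hj
    have hj' := Finset.mem_range.1 hj
    have h3 := Nat.find_min hex hj'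
    have hjn : j ∈ Finset.range (n + 1) := by
      have := Finset.mem_range.1 h1
      exact Finset.mem_range.2 (by omega)
    rw [not_and] at h3
    have h4 := h3 hjn
    push Not at h4
    obtain ⟨i, hi, hlt⟩ := h4
    exact lt_of_lt_of_le hlt (h2 i hi)
  · intro j hj
    have hj' := Finset.mem_Icc.1 hj
    have := h2 j (Finset.mem_range.2 (by omega))
    linarith

theorem disj (n : ℕ) : Set.PairwiseDisjoint (↑(Finset.range (n + 1)) : Set ℕ)
    fun m => Af m ∩ Bf m n := by
  have key : ∀ a b : ℕ, a < b → b < n + 1 → ∀ ω : ℕ → ℝ, ω ∈ Af a ∩ Bf a n →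
      ω ∈ Af b ∩ Bf b n → False := by
    intro a b hab hb ω h1 h2
    have h3 := h1.2 b (Finset.mem_Icc.2 ⟨by omega, by omega⟩)
    have h4 := h2.1 a (Finset.mem_range.2 hab)
    linarith
  intro a ha b hb hab
  have ha' := Finset.mem_range.1 (Finset.mem_coe.1 ha)
  have hb' := Finset.mem_range.1 (Finset.mem_coe.1 hb)
  show Disjoint (Af a ∩ Bf a n) (Af b ∩ Bf b n)
  rw [Set.disjoint_left]
  intro ω h1 h2
  rcases lt_or_gt_of_ne hab with h | h
  · exact key a b h hb' ω h1 h2
  · exact key b a h ha' ω h2 h1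

/-- The decomposition at the first maximum. -/
theorem conv_eq (h3 : S_L3) (n : ℕ) : ∑ p ∈ antidiagonal n, av p.1 * av p.2 = 1 := by
  have h1 : PP.real (⋃ m ∈ Finset.range (n + 1), Af m ∩ Bf m n) =
      ∑ m ∈ Finset.range (n + 1), PP.real (Af m ∩ Bf m n) :=
    measureReal_biUnion_finset (disj n) fun m _ => (meas_Af m).inter (meas_Bf m n)
  have h2 : (⋃ m ∈ Finset.range (n + 1), Af m ∩ Bf m n) = Set.univ := by
    refine Set.eq_univ_of_forall fun ω => ?_
    obtain ⟨m, hm, h⟩ := cover n ω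
    simp only [Set.mem_iUnion]
    exact ⟨m, hm, h⟩
  rw [h2, probReal_univ] at h1
  rw [Finset.Nat.sum_antidiagonal_eq_sum_range_succ (fun i j => av i * av j), h1]
  refine Finset.sum_congr rfl fun m hm => ?_
  have hm' := Finset.mem_range.1 hm
  have h4 : Disjoint (Finset.Icc 1 m) (Finset.Icc (m + 1) n) := by
    rw [Finset.disjoint_left]
    intro i hi hi'
    have := (Finset.mem_Icc.1 hi).2
    have := (Finset.mem_Icc.1 hi').1
    omega
  rw [Pool.Agent.H975.GP174.gp_indep (Finset.Icc 1 m) (Finset.Icc (m + 1) n) (Af m) (Bf m n) h4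
    (meas_Af m) (meas_Bf m n) (dep_Af m) (dep_Bf m n), real_Af, bv_eq h3]
  have h5 : n = m + (n - m) := by omega
  have h6 := real_Bf h3 m (n - m)
  rw [← h5] at h6
  rw [h6]

theorem av_zero : av 0 = 1 := by
  unfold av
  have : {ω : ℕ → ℝ | ∀ j ∈ Finset.Icc 1 0, 0 ≤ S ω j} = Set.univ := by
    ext ω
    simp
  rw [this, probReal_univ]

theorem av_eq (h3 : S_L3) (n : ℕ) : av n = cb n := by
  induction n using Nat.strong_induction_on with
  | _ n ih =>
    rcases n with _ | n
    · rw [av_zero, cb_zero]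
    · have h1 := conv_eq h3 (n + 1)
      have h2 := D2_eq (n + 1)
      unfold D2 at h2
      have key : ∀ f : ℕ → ℝ, ∑ p ∈ antidiagonal (n + 1), f p.1 * f p.2 =
          2 * (f 0 * f (n + 1)) + ∑ m ∈ Finset.range n, f (m + 1) * f (n - m) := by
        intro f
        rw [Finset.Nat.sum_antidiagonal_eq_sum_range_succ (fun i j => f i * f j),
          Finset.sum_range_succ, Finset.sum_range_succ']
        have e1 : ∀ m ∈ Finset.range n, f (m + 1) * f (n + 1 - (m + 1)) =
            f (m + 1) * f (n - m) := fun m _ => by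
          rw [Nat.add_sub_add_right]
        rw [Finset.sum_congr rfl e1, Nat.sub_zero, Nat.sub_self]
        ring
      rw [key av] at h1
      rw [key cb] at h2
      have h4 : ∑ m ∈ Finset.range n, av (m + 1) * av (n - m) =
          ∑ m ∈ Finset.range n, cb (m + 1) * cb (n - m) := by
        refine Finset.sum_congr rfl fun m hm => ?_
        have := Finset.mem_range.1 hm
        rw [ih (m + 1) (by omega), ih (n - m) (by omega)]
      rw [h4, av_zero] at h1
      rw [cb_zero] at h2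
      linarith

theorem gp_sparre (h1 : S_L3) : Pool.Agent.H174.GP.S_sparre := by
  intro n
  have h := cb_ge n
  rw [← av_eq h1 n] at h
  exact h

end Pool.Agent.H870.GP174

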